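import Pool.Agent.Lib_helper33.MS.GSys

/-!
# More API for the blocks
-/

namespace Pool.Agent.MS.It

open Cardinal Set Filter Pool.Agent.Lib_helper27

variable {E : Lev} {M : ℕ}

theorem glue_mk_coord {n : ℕ} (a : A E n) (q : Rl E n (A E n)) (r : P E) :
    glue (n + 1) (mk a q) r n = q := by
  have h := congrArg sn (res_glue (mk a q) r)
  rwa [sn_res, sn_mk] at h

theorem glue_mk_resn {n : ℕ} (a : A E n) (q : Rl E n (A E n)) (r : P E) :
    res n (glue (n + 1) (mk a q) r) = a := by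
  have h := congrArg fs (res_glue (mk a q) r)
  rwa [fs_res, fs_mk] at h

theorem pr_coord (K : Crit E M) (h : K.Y → P E) : pr K h M = bC K h := glue_mk_coord _ _ _

theorem pr_resn (K : Crit E M) (h : K.Y → P E) : res M (pr K h) = aC K h := glue_mk_resn _ _ _

theorem pr_ge (K : Crit E M) (h : K.Y → P E) {j : ℕ} (hj : M + 1 ≤ j) :
    pr K h j = Run (muS K h) j := glue_ge hj

/-- The components of `p ≤ pr K h`. -/
theorem le_pr_iff (K : Crit E M) (h : K.Y → P E) (p : P E) : p ≤ pr K h ↔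
    res M p ≤ aC K h ∧ (∀ ζ ξ v, ∀ a ≤ res M p, (bC K h).r ζ ξ a v →
      Loc a (fun c => (p M).r ζ ξ c v)) ∧ ∀ j, M + 1 ≤ j → ∀ ζ ξ v, ∀ b ≤ res j p,
      RunR (muS K h) j ζ ξ b v → Loc b (fun c => (p j).r ζ ξ c v) := by
  rw [pr, le_glue_iff, A_le_def]
  simp only [fs_res, fs_mk, sn_res, sn_mk, and_assoc]
  refine and_congr_right fun _ => and_congr_right fun _ => ?_
  refine forall_congr' fun j => forall_congr' fun hj => ?_
  simp only [Run_r hj]

end Pool.Agent.MS.It
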