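import Pool.Agent.Lib_helper33.MS.Size

/-!
# Small families are bounded
-/

namespace Pool.Agent.MS.It

open Cardinal Set Pool.Agent.Lib_helper27

variable {E : Lev}

/-- BDS. Small families below `c n` are bounded. -/
theorem bds_pr (E : Lev) (n : ℕ) {I : Type} (hI : #I < E.κ n) (f : I → E.Ω)
    (hf : ∀ i, f i < E.c n) : ∃ β < E.c n, ∀ i, f i < β := by
  by_contra hcon
  push Not at hcon
  have hlt : ∀ i : I, #{x : Lv E.c n // x.1 ≤ f i} < E.κ n := by
    intro i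
    have h1 : #{y : E.Ω // y < f i} < E.κ n := E.kinit n (hf i)
    have h2 : #{y : E.Ω // y = f i} < E.κ n := by
      have : #{y : E.Ω // y = f i} = 1 := by simp
      rw [this]
      exact one_lt_aleph0.trans_le (E.kinf n)
    have h3 := small_or (E.kinf n) h1 h2
    refine (mk_le_of_injective (f := fun x : {x : Lv E.c n // x.1 ≤ f i} =>
      (⟨x.1.1, lt_or_eq_of_le x.2⟩ : {y : E.Ω // y < f i ∨ y = f i})) ?_).trans_lt h3
    intro a b hab
    apply Subtype.ext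
    apply Subtype.ext
    exact congrArg (fun z : {y : E.Ω // y < f i ∨ y = f i} => z.1) hab
  have h4 := small_iUnion (E.kreg n) hI (fun i (x : Lv E.c n) => x.1 ≤ f i) hlt
  have h5 : #(Lv E.c n) ≤ #{x : Lv E.c n // ∃ i, x.1 ≤ f i} := by
    refine mk_le_of_injective (f := fun x => ⟨x, hcon x.1 x.2⟩) ?_
    intro a b hab
    exact congrArg (fun z : {x : Lv E.c n // ∃ i, x.1 ≤ f i} => z.1) hab
  exact absurd h4 (not_lt.2 h5)

/-- SUP. The support of a name is bounded. -/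
theorem sup_pr {n : ℕ} {A : Type} [Preorder A] (q : Rl E n A) :
    ∃ γ < E.c (n + 1), ∃ δ < E.c n, ∀ ζ ξ a v, q.r ζ ξ a v → ζ < γ ∧ ξ < δ := by
  obtain ⟨γ, hγ, h1⟩ := bds_pr E (n + 1) (q.small.trans (E.klt (by omega)))
    (fun x => x.1.1) (fun x => by
      obtain ⟨a, v, h⟩ := x.2
      exact (q.val h).2.1)
  obtain ⟨δ, hδ, h2⟩ := bds_pr E n q.small (fun x => x.1.2) (fun x => by
      obtain ⟨a, v, h⟩ := x.2
      exact (q.val h).2.2)
  exact ⟨γ, hγ, δ, hδ, fun ζ ξ a v h => ⟨h1 ⟨(ζ, ξ), a, v, h⟩, h2 ⟨(ζ, ξ), a, v, h⟩⟩⟩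

end Pool.Agent.MS.It
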