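import Pool.Agent.Lib_helper33.MS.Bds

/-!
# Systems at a critical level

`κ (M + 1)` is supercompact, `U` the ultrafilter; level `M` collapses the points below `κ (M + 1)`
to `κ M`. A code is a function `h : Y → P`.
-/

namespace Pool.Agent.MS.It

open Cardinal Set Filter Pool.Agent.Lib_helper27

/-- `μ` is supercompact: uncountable, and for every set `Λ` there is a `μ`-complete, fine, normal
ultrafilter on the set of the subsets of `Λ` of size less than `μ`. -/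
def Supercompact (μ : Cardinal.{0}) : Prop :=
  ℵ₀ < μ ∧ ∀ Λ : Type, ∃ U : Ultrafilter (Set Λ),
    (∀ (I : Type) (B : I → Set (Set Λ)), #I < μ → (∀ i, B i ∈ U) → (⋂ i, B i) ∈ U) ∧
    (∀ x : Λ, {y : Set Λ | x ∈ y} ∈ U) ∧ {y : Set Λ | #y < μ} ∈ U ∧
    ∀ f : Set Λ → Λ, {y : Set Λ | f y ∈ y} ∈ U → ∃ x, {y : Set Λ | f y = x} ∈ U

/-- The data at the critical level `κ (M + 1)`. -/
structure Crit (E : Lev) (M : ℕ) : Type 1 where
  Y : Type
  U : Ultrafilter Y
  comp : ∀ (I : Type) (Q : I → Y → Prop), #I < E.κ (M + 1) → (∀ i, ∀ᶠ y in U, Q i y) →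
    ∀ᶠ y in U, ∀ i, Q i y
  ζ : Y → E.Ω
  d : Y → E.Ω → P E
  T : Y → Set (P E → E.Ω → E.Ω → Prop)
  hζ : ∀ y, ζ y < E.c (M + 1)
  hζ2 : ∀ z < E.c (M + 1), ∀ᶠ y in U, z < ζ y
  hd : ∀ r, ∀ᶠ y in U, ∃ v < ζ y, d y v = r
  nrm : ∀ f : Y → P E, (∀ᶠ y in U, ∃ v < ζ y, d y v = f y) → ∃ r, ∀ᶠ y in U, f y = r
  hT : ∀ F, ∀ᶠ y in U, F ∈ T y
  Tsmall : ∀ y, #(T y) < E.κ (M + 1)

variable {E : Lev} {M : ℕ}

/-- A function to a small set is constant almost everywhere. -/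
theorem Crit.const (K : Crit E M) {Z : Type} (hZ : #Z < E.κ (M + 1)) (f : K.Y → Z) :
    ∃ z, ∀ᶠ y in K.U, f y = z := by
  by_contra hcon
  push Not at hcon
  have h1 : ∀ z, ∀ᶠ y in K.U, f y ≠ z := hcon
  obtain ⟨y, hy⟩ := (K.comp Z _ hZ h1).exists
  exact hy _ rfl

/-- The moves read off from the generic object at `ζ y`. -/
def muY (K : Crit E M) (y : K.Y) : Mv E M where
  φ a ξ r := ∃ v, Loc (fs a) (fun b => (sn a).r (K.ζ y) ξ b v) ∧ K.d y v = r
  mono := by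
    rintro a b ξ r hba ⟨v, h1, h2⟩
    refine ⟨v, ?_, h2⟩
    exact (h1.mono (A_le_def.1 hba).1).bind fun c hc h3 => (A_le_def.1 hba).2 _ _ _ c hc h3
  func := by
    rintro a b c ξ r s hca hcb ⟨v, h1, h2⟩ ⟨w, h3, h4⟩
    have h5 : Loc (fs c) (fun x => (sn c).r (K.ζ y) ξ x v) :=
      (h1.mono (A_le_def.1 hca).1).bind fun x hx h => (A_le_def.1 hca).2 _ _ _ x hx h
    have h6 : Loc (fs c) (fun x => (sn c).r (K.ζ y) ξ x w) :=
      (h3.mono (A_le_def.1 hcb).1).bind fun x hx h => (A_le_def.1 hcb).2 _ _ _ x hx h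
    obtain ⟨x, hx, h7⟩ := h5.exists
    obtain ⟨z, hz, h8⟩ := h6 x hx
    have : v = w := (sn c).func hz le_rfl h7 h8
    rw [← h2, ← h4, this]
  small := by
    have h1 : #{v : E.Ω // v < K.ζ y} < E.κ (M + 1) := E.kinit _ (K.hζ y)
    have h2 : ∀ r : {r : P E // ∃ (a : A E (M + 1)) (ξ : E.Ω) (v : E.Ω),
        Loc (fs a) (fun b => (sn a).r (K.ζ y) ξ b v) ∧ K.d y v = r},
        ∃ v : {v : E.Ω // v < K.ζ y}, K.d y v.1 = r.1 := by
      rintro ⟨r, a, ξ, v, h3, h4⟩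
      obtain ⟨b, _, h5⟩ := h3.exists
      exact ⟨⟨v, ((sn a).val h5).1⟩, h4⟩
    choose f hf using h2
    refine (mk_le_of_injective (f := f) ?_).trans_lt h1
    intro r s hrs
    apply Subtype.ext
    rw [← hf r, ← hf s, hrs]

/-- The master condition. -/
def ms (K : Crit E M) (y : K.Y) : P E := Run (muY K y)

/-- `m'` is a master condition. -/
structure Crit.Mas (K : Crit E M) (m' : K.Y → P E) : Prop where
  le : ∀ y, m' y ≤ ms K y
  res : ∀ y, res (M + 1) (m' y) = res (M + 1) (top E)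

/-- The `r` is the `ξ`th move of `h`, almost everywhere. -/
def sg (K : Crit E M) (h : K.Y → P E) (ξ : E.Ω) (a : A E M) (r : P E) : Prop :=
  ∀ᶠ y in K.U, ∃ v, (h y M).r (K.ζ y) ξ a v ∧ K.d y v = r

theorem sg_mono {K : Crit E M} {h : K.Y → P E} {ξ : E.Ω} {a b : A E M} {r : P E} (hb : b ≤ a)
    (hr : sg K h ξ a r) : sg K h ξ b r :=
  hr.mono fun y ⟨v, h1, h2⟩ => ⟨v, (h y M).mono hb h1, h2⟩

theorem sg_func {K : Crit E M} {h : K.Y → P E} {ξ : E.Ω} {a b c : A E M} {r s : P E} (ha : c ≤ a)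
    (hb : c ≤ b) (hr : sg K h ξ a r) (hs : sg K h ξ b s) : r = s := by
  obtain ⟨y, ⟨v, h1, h2⟩, ⟨w, h3, h4⟩⟩ := (hr.and hs).exists
  have : v = w := (h y M).func ha hb h1 h3
  rw [← h2, ← h4, this]

theorem sg_lt {K : Crit E M} {h : K.Y → P E} {ξ : E.Ω} {a : A E M} {r : P E}
    (hr : sg K h ξ a r) : ξ < E.c M := by
  obtain ⟨y, ⟨v, h1, h2⟩⟩ := hr.exists
  exact ((h y M).val h1).2.2

/-- The moves of `h`. -/
def muS (K : Crit E M) (h : K.Y → P E) : Mv E M where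
  φ a ξ r := Loc (fs a) (fun b => sg K h ξ b r)
  mono hba h := h.mono (A_le_def.1 hba).1
  func := by
    intro a b c ξ r s hca hcb h1 h2
    obtain ⟨x, hx, h3⟩ := (h1.mono (A_le_def.1 hca).1).exists
    obtain ⟨z, hz, h4⟩ := (h2.mono (A_le_def.1 hcb).1) x hx
    exact sg_func hz le_rfl h3 h4
  small := by
    have h2 : ∀ r : {r : P E // ∃ (a : A E (M + 1)) (ξ : E.Ω), Loc (fs a) (fun b => sg K h ξ b r)},
        ∃ z : Lv E.c M × A E M, sg K h z.1.1 z.2 r.1 := by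
      rintro ⟨r, a, ξ, h3⟩
      obtain ⟨b, _, h4⟩ := h3.exists
      exact ⟨⟨⟨ξ, sg_lt h4⟩, b⟩, h4⟩
    choose f hf using h2
    refine (mk_le_of_injective (f := f) ?_).trans_lt ?_
    · intro r s hrs
      apply Subtype.ext
      refine sg_func le_rfl le_rfl (hf r) ?_
      rw [hrs]
      exact hf s
    · rw [mk_prod, lift_id, lift_id]
      exact mul_lt_of_lt (E.kinf _) (E.klt (by omega)) (size E M)

/-- The part of `h` below `κ (M + 1)` on level `M`. -/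
def bC (K : Crit E M) (h : K.Y → P E) : Rl E M (A E M) where
  r ζ ξ a v := ∀ᶠ y in K.U, (h y M).r ζ ξ a v
  mono hb h1 := h1.mono fun y h2 => (h y M).mono hb h2
  func := by
    intro ζ ξ a b c v w ha hb h1 h2
    obtain ⟨y, h3, h4⟩ := (h1.and h2).exists
    exact (h y M).func ha hb h3 h4
  val := by
    intro ζ ξ a v h1
    obtain ⟨y, h2⟩ := h1.exists
    exact (h y M).val h2
  small := by
    by_contra hcon
    rw [not_lt] at hcon
    obtain ⟨S, hS⟩ := (le_mk_iff_exists_subset (s := {x : E.Ω × E.Ω |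
      ∃ a v, ∀ᶠ y in K.U, (h y M).r x.1 x.2 a v})).1 hcon
    have h1 : ∀ x : S, ∀ᶠ y in K.U, ∃ a v, (h y M).r x.1.1 x.1.2 a v := by
      intro x
      obtain ⟨a, v, h2⟩ := hS.1 x.2
      exact h2.mono fun y h3 => ⟨a, v, h3⟩
    obtain ⟨y, hy⟩ := (K.comp S _ (by rw [hS.2]; exact E.klt (by omega)) h1).exists
    have h3 : #S ≤ #{x : E.Ω × E.Ω // ∃ a v, (h y M).r x.1 x.2 a v} :=
      mk_le_of_injective (f := fun x : S => ⟨x.1, hy x⟩) (by
        intro a b hab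
        apply Subtype.ext
        exact congrArg (fun z : {x : E.Ω × E.Ω // ∃ a v, (h y M).r x.1 x.2 a v} => z.1) hab)
    rw [hS.2] at h3
    exact absurd (h y M).small (not_lt.2 h3)

/-- The restriction of `h` to the levels below `M`. -/
noncomputable def aC (K : Crit E M) (h : K.Y → P E) : A E M :=
  (K.const (size E M) fun y => res M (h y)).choose

theorem aC_spec (K : Crit E M) (h : K.Y → P E) : ∀ᶠ y in K.U, res M (h y) = aC K h :=
  (K.const (size E M) fun y => res M (h y)).choose_spec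

/-- The projection of `h`. -/
noncomputable def pr (K : Crit E M) (h : K.Y → P E) : P E :=
  glue (M + 1) (mk (aC K h) (bC K h)) (Run (muS K h))

/-- `h` is a code: it is below the master condition, and the moves are decided exactly at the
positions below some `β`. -/
structure IsCode (K : Crit E M) (m' : K.Y → P E) (h : K.Y → P E) : Prop where
  le : ∀ᶠ y in K.U, h y ≤ m' y
  gap : ∃ β < E.c M, ∀ᶠ y in K.U,
    (∀ ξ < β, Loc (res M (h y)) fun a => ∃ v, (h y M).r (K.ζ y) ξ a v) ∧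
    ∀ ξ, β ≤ ξ → ∀ a v, ¬ (h y M).r (K.ζ y) ξ a v

end Pool.Agent.MS.It
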