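import Pool.Agent.Lib_helper27.MS.Defs

/-!
# The iteration of Levy collapses as one explicit poset

`Ω` is a well-order, `c n` its cutoffs; level `n` collapses the points below `c (n+1)` to `c n`.
A name for a partial function is a relation: `r ζ ξ a v` says that the condition `a` (of the
previous stage) decides that the value at `(ζ, ξ)` is `v`.
-/

namespace Pool.Agent.MS.It

open Cardinal Set Pool.Agent.Lib_helper27

/-- The data of the levels: a well-order `Ω` with cutoffs `c n`; the number of points below `c n` is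
the regular cardinal `κ n`, inaccessible for `n ≥ 1`. -/
structure Lev : Type 1 where
  /-- the well-order -/
  Ω : Type
  [lo : LinearOrder Ω]
  [wf : WellFoundedLT Ω]
  /-- the cutoffs -/
  c : ℕ → Ω
  mono : StrictMono c
  init : ∀ n, ∀ x : Ω, x < c n → #{y : Ω // y < x} < #(Lv c n)
  reg : ∀ n, (#(Lv c n)).IsRegular
  inacc : ∀ n, ∀ μ : Cardinal.{0}, μ < #(Lv c (n + 1)) → 2 ^ μ < #(Lv c (n + 1))

attribute [instance] Lev.lo Lev.wf

/-- The cardinals. -/
def Lev.κ (E : Lev) (n : ℕ) : Cardinal.{0} := #(Lv E.c n)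

theorem Lev.kreg (E : Lev) (n : ℕ) : (E.κ n).IsRegular := E.reg n

theorem Lev.kpos (E : Lev) (n : ℕ) : 0 < E.κ n := (E.kreg n).pos

theorem Lev.kinf (E : Lev) (n : ℕ) : ℵ₀ ≤ E.κ n := (E.kreg n).aleph0_le

theorem Lev.kinit (E : Lev) (n : ℕ) {x : E.Ω} (hx : x < E.c n) : #{y : E.Ω // y < x} < E.κ n :=
  E.init n x hx

theorem Lev.kpow (E : Lev) (n : ℕ) {μ : Cardinal.{0}} (h : μ < E.κ (n + 1)) : 2 ^ μ < E.κ (n + 1) :=
  E.inacc n μ h

theorem Lev.klt (E : Lev) {m n : ℕ} (h : m < n) : E.κ m < E.κ n := E.init n _ (E.mono h)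

theorem Lev.kle (E : Lev) {m n : ℕ} (h : m ≤ n) : E.κ m ≤ E.κ n := by
  rcases h.lt_or_eq with h | rfl
  · exact (E.klt h).le
  · exact le_rfl

/-- A name for a partial function (level `n`, over the stage `A`), of size less than `κ n`; the value
at `(ζ, ξ)` is below `ζ`. -/
structure Rl (E : Lev) (n : ℕ) (A : Type) [Preorder A] : Type where
  r : E.Ω → E.Ω → A → E.Ω → Prop
  mono : ∀ {ζ ξ a b v}, b ≤ a → r ζ ξ a v → r ζ ξ b v
  func : ∀ {ζ ξ a b c v w}, c ≤ a → c ≤ b → r ζ ξ a v → r ζ ξ b w → v = w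
  val : ∀ {ζ ξ a v}, r ζ ξ a v → v < ζ ∧ ζ < E.c (n + 1) ∧ ξ < E.c n
  small : #{x : E.Ω × E.Ω // ∃ a v, r x.1 x.2 a v} < E.κ n

/-- One step of the iteration. -/
structure Stp (E : Lev) (n : ℕ) (A : Type) [Preorder A] : Type where
  b : A
  q : Rl E n A

instance (E : Lev) (n : ℕ) (A : Type) [Preorder A] : Preorder (Stp E n A) where
  le x y := x.b ≤ y.b ∧ ∀ ζ ξ v, ∀ a ≤ x.b, y.q.r ζ ξ a v → Loc a (fun c => x.q.r ζ ξ c v)
  le_refl x := ⟨le_rfl, fun ζ ξ v a _ h => Loc.pure fun _ hb => x.q.mono hb h⟩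
  le_trans x y z h1 h2 := by
    refine ⟨h1.1.trans h2.1, fun ζ ξ v a ha h => ?_⟩
    exact (h2.2 ζ ξ v a (ha.trans h1.1) h).bind fun b hb h3 => h1.2 ζ ξ v b (hb.trans ha) h3

/-- A bundled preorder. -/
structure PO : Type 1 where
  C : Type
  [pre : Preorder C]

attribute [instance] PO.pre

/-- The stages of the iteration. -/
def Sg (E : Lev) : ℕ → PO
  | 0 => ⟨Unit⟩
  | n + 1 => ⟨Stp E n (Sg E n).C⟩

/-- Stage `n`. -/
abbrev A (E : Lev) (n : ℕ) : Type := (Sg E n).C

/-- The poset: full support. -/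
def P (E : Lev) : Type := ∀ n, Rl E n (A E n)

variable {E : Lev}

/-- The condition of stage `n + 1` with components `a` and `q`. -/
def mk {n : ℕ} (a : A E n) (q : Rl E n (A E n)) : A E (n + 1) := (⟨a, q⟩ : Stp E n (A E n))

/-- The first component. -/
def fs {n : ℕ} (x : A E (n + 1)) : A E n := Stp.b (A := A E n) (n := n) x

/-- The second component. -/
def sn {n : ℕ} (x : A E (n + 1)) : Rl E n (A E n) := Stp.q (A := A E n) (n := n) x

@[simp] theorem fs_mk {n : ℕ} (a : A E n) (q : Rl E n (A E n)) : fs (mk a q) = a := rfl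
@[simp] theorem sn_mk {n : ℕ} (a : A E n) (q : Rl E n (A E n)) : sn (mk a q) = q := rfl
@[simp] theorem mk_eta {n : ℕ} (x : A E (n + 1)) : mk (fs x) (sn x) = x := rfl

theorem A_le_def {n : ℕ} {x y : A E (n + 1)} : x ≤ y ↔ fs x ≤ fs y ∧
    ∀ ζ ξ v, ∀ a ≤ fs x, (sn y).r ζ ξ a v → Loc a (fun c => (sn x).r ζ ξ c v) := Iff.rfl

/-- The restriction of a condition to the first `n` coordinates. -/
def res : (n : ℕ) → P E → A E n
  | 0, _ => ()
  | n + 1, p => mk (res n p) (p n)

instance : Preorder (P E) where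
  le p q := ∀ n, res n p ≤ res n q
  le_refl p n := le_rfl
  le_trans p q r h1 h2 n := (h1 n).trans (h2 n)

theorem le_def {p q : P E} : p ≤ q ↔ ∀ n, res n p ≤ res n q := Iff.rfl

theorem res_mono {n : ℕ} {p q : P E} (h : p ≤ q) : res n p ≤ res n q := h n

@[simp] theorem fs_res {n : ℕ} (p : P E) : fs (res (n + 1) p) = res n p := rfl
@[simp] theorem sn_res {n : ℕ} (p : P E) : sn (res (n + 1) p) = p n := rfl

theorem res_succ_le {n : ℕ} {p q : P E} : res (n + 1) p ≤ res (n + 1) q ↔
    res n p ≤ res n q ∧ ∀ ζ ξ v, ∀ a ≤ res n p, (q n).r ζ ξ a v →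
      Loc a (fun c => (p n).r ζ ξ c v) := Iff.rfl

theorem res_le_of_le {n m : ℕ} (hnm : n ≤ m) {p q : P E} (h : res m p ≤ res m q) :
    res n p ≤ res n q := by
  induction m, hnm using Nat.le_induction with
  | base => exact h
  | succ m _ ih => exact ih (res_succ_le.1 h).1

theorem res_congr {n : ℕ} {p q : P E} (h : ∀ i < n, p i = q i) : res n p = res n q := by
  induction n with
  | zero => rfl
  | succ n ih =>
    simp only [res]
    rw [ih fun i hi => h i (by omega), h n (by omega)]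

theorem res_eq_of_le {n m : ℕ} (hnm : n ≤ m) {p q : P E} (h : res m p = res m q) :
    res n p = res n q := by
  induction m, hnm using Nat.le_induction with
  | base => exact h
  | succ m _ ih => exact ih (congrArg fs h)

theorem coord_of_res {n i : ℕ} (hi : i < n) {p q : P E} (h : res n p = res n q) : p i = q i := by
  have h1 : res (i + 1) p = res (i + 1) q := res_eq_of_le hi h
  exact congrArg sn h1

/-- The trivial name. -/
def triv0 (E : Lev) (n : ℕ) (A : Type) [Preorder A] : Rl E n A where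
  r _ _ _ _ := False
  mono _ h := h
  func _ _ h := h.elim
  val h := h.elim
  small := by
    have : IsEmpty {x : E.Ω × E.Ω // ∃ (_ : A) (_ : E.Ω), False} := ⟨fun x => by obtain ⟨_, _, _, h⟩ := x; exact h⟩
    simpa using E.kpos n

/-- `TL n q r`: the coordinates of `q` from `n` on are stronger than those of `r`. -/
def TL (n : ℕ) (q r : P E) : Prop :=
  ∀ j, n ≤ j → ∀ ζ ξ v, ∀ b ≤ res j q, (r j).r ζ ξ b v → Loc b (fun b' => (q j).r ζ ξ b' v)

theorem le_iff_TL (n : ℕ) {q r : P E} : q ≤ r ↔ res n q ≤ res n r ∧ TL n q r := by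
  constructor
  · intro h
    exact ⟨h n, fun j _ => (res_succ_le.1 (h (j + 1))).2⟩
  · rintro ⟨h1, h2⟩ m
    rcases le_total m n with h | h
    · exact res_le_of_le h h1
    · induction m, h using Nat.le_induction with
      | base => exact h1
      | succ m hm ih => exact res_succ_le.2 ⟨ih, h2 m hm⟩

theorem TL.mono {n : ℕ} {q q' r : P E} (hq : q' ≤ q) (h : TL n q r) : TL n q' r := by
  intro j hj ζ ξ v b hb hr
  refine (h j hj ζ ξ v b (hb.trans (hq j)) hr).bind fun c hc h3 => ?_
  exact (res_succ_le.1 (hq (j + 1))).2 ζ ξ v c (hc.trans hb) h3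

/-- The condition with the first `n` coordinates given by `a` and the others by `r`. -/
def glue : (n : ℕ) → A E n → P E → P E
  | 0, _, r => r
  | n + 1, a, r => glue n (fs a) (Function.update r n (sn a))

theorem glue_ge {n : ℕ} {a : A E n} {r : P E} {i : ℕ} (hi : n ≤ i) : glue n a r i = r i := by
  induction n generalizing r with
  | zero => rfl
  | succ n ih =>
    rw [glue, ih (by omega)]
    exact Function.update_of_ne (by omega) _ _

@[simp] theorem res_glue {n : ℕ} (a : A E n) (r : P E) : res n (glue n a r) = a := by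
  induction n generalizing r with
  | zero => rfl
  | succ n ih =>
    have h1 : glue (n + 1) a r n = sn a := by
      rw [glue, glue_ge le_rfl]
      exact Function.update_self _ _ _
    have h2 : res n (glue (n + 1) a r) = fs a := by rw [glue]; exact ih _ _
    rw [res, h2, h1, mk_eta]

theorem TL_glue_right {n m : ℕ} (hn : n ≤ m) {a : A E n} {q r : P E} :
    TL m q (glue n a r) ↔ TL m q r := by
  unfold TL
  refine forall_congr' fun j => forall_congr' fun hj => ?_
  rw [glue_ge (hn.trans hj)]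

theorem TL_glue_left {n : ℕ} {a : A E n} {q r : P E} (ha : a ≤ res n q) (h : TL n q r) :
    TL n (glue n a q) r ∧ glue n a q ≤ q := by
  have h1 : glue n a q ≤ q := by
    rw [le_iff_TL n]
    refine ⟨by simpa using ha, fun j hj ζ ξ v b _ hr => ?_⟩
    rw [glue_ge hj]
    exact Loc.pure fun b' hb' => (q j).mono hb' hr
  exact ⟨h.mono h1, h1⟩

theorem glue_le {n : ℕ} {a : A E n} {q : P E} (ha : a ≤ res n q) : glue n a q ≤ q := by
  rw [le_iff_TL n]
  refine ⟨by simpa using ha, fun j hj ζ ξ v b _ hr => ?_⟩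
  rw [glue_ge hj]
  exact Loc.pure fun b' hb' => (q j).mono hb' hr

theorem le_glue_iff {n : ℕ} {a : A E n} {q r : P E} : q ≤ glue n a r ↔ res n q ≤ a ∧ TL n q r := by
  rw [le_iff_TL n, res_glue, TL_glue_right le_rfl]

theorem le_glue {n : ℕ} {a : A E n} {q r : P E} (h : q ≤ r) (ha : res n q ≤ a) : q ≤ glue n a r :=
  le_glue_iff.2 ⟨ha, ((le_iff_TL n).1 h).2⟩

theorem glue_mono {n : ℕ} {a a' : A E n} {q r : P E} (ha : a' ≤ a) (hq : a' ≤ res n q) (h : q ≤ r) :
    glue n a' q ≤ glue n a r :=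
  le_glue ((glue_le hq).trans h) (by simpa using ha)

/-- The trivial condition. -/
def top (E : Lev) : P E := fun n => triv0 E n _

@[simp] theorem top_r {n : ℕ} {ζ ξ : E.Ω} {a : A E n} {v : E.Ω} : ¬ (top E n).r ζ ξ a v := fun h => h

theorem le_top' {n : ℕ} (a : A E n) : a ≤ res n (top E) := by
  induction n with
  | zero => exact le_rfl
  | succ n ih => exact A_le_def.2 ⟨ih _, fun ζ ξ v b _ h => (top_r h).elim⟩

theorem le_top (p : P E) : p ≤ top E := fun _ => le_top' _

theorem TL_top (n : ℕ) (q : P E) : TL n q (top E) := fun _ _ _ _ _ _ _ h => (top_r h).elim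

/-- The condition with the first `n` coordinates given by `a` and the others trivial. -/
def emb (n : ℕ) (a : A E n) : P E := glue n a (top E)

@[simp] theorem res_emb {n : ℕ} (a : A E n) : res n (emb n a) = a := res_glue _ _

theorem emb_mono {n : ℕ} {a b : A E n} (h : a ≤ b) : emb n a ≤ emb n b :=
  le_glue_iff.2 ⟨by simpa using h, TL_top _ _⟩

/-- The restriction of `b` to the first `n` coordinates. -/
def rs (n : ℕ) {j : ℕ} (b : A E j) : A E n := res n (emb j b)

@[simp] theorem rs_self {n : ℕ} (b : A E n) : rs n b = b := res_emb b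

theorem rs_mono (n : ℕ) {j : ℕ} {b b' : A E j} (h : b ≤ b') : rs n b ≤ rs n b' := emb_mono h n

theorem rs_res {n j : ℕ} (hn : n ≤ j) (p : P E) : rs n (res j p) = res n p :=
  res_eq_of_le hn (by simp)

theorem rs_fs {n j : ℕ} (hn : n ≤ j) (b : A E (j + 1)) : rs n (fs b) = rs n b := by
  have h := rs_res hn (emb (j + 1) b)
  rw [← fs_res, res_emb] at h
  exact h

theorem rs_succ {n j : ℕ} (b : A E j) : fs (rs (n + 1) b) = rs n b := rfl

theorem rs_rs {n m j : ℕ} (hn : n ≤ m) (b : A E j) : rs n (rs m b) = rs n b := rs_res hn _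

/-- Replace the first `n` coordinates of `b` by `a`. -/
def ins {n j : ℕ} (a : A E n) (b : A E j) : A E j := res j (glue n a (emb j b))

theorem ins_le {n j : ℕ} {a : A E n} {b : A E j} (h : a ≤ rs n b) : ins a b ≤ b := by
  have h1 : glue n a (emb j b) ≤ emb j b := glue_le h
  have h2 := h1 j
  rw [res_emb] at h2
  exact h2

theorem rs_ins {n j : ℕ} (hn : n ≤ j) (a : A E n) (b : A E j) : rs n (ins a b) = a := by
  rw [ins, rs_res hn, res_glue]

/-- If `a` is compatible with the restriction of `b`, there is a common extension. -/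
theorem exists_ins {n j : ℕ} (hn : n ≤ j) {a : A E n} {b : A E j} (h : a ≤ rs n b) :
    ∃ b' ≤ b, rs n b' = a := ⟨ins a b, ins_le h, rs_ins hn a b⟩

/-- Unions of few small sets are small. -/
theorem small_iUnion {κ : Cardinal.{0}} (hκ : κ.IsRegular) {I X : Type} (hI : #I < κ)
    (S : I → X → Prop) (hS : ∀ i, #{x // S i x} < κ) : #{x // ∃ i, S i x} < κ := by
  have h := (Cardinal.card_iUnion_lt_iff_forall_of_isRegular (t := fun i => {x | S i x}) hκ hI).2 hS
  have h2 : (⋃ i, {x | S i x}) = {x | ∃ i, S i x} := by ext x; simp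
  rw [h2] at h
  exact h

theorem small_imp {κ : Cardinal.{0}} {X : Type} {S T : X → Prop} (h : ∀ x, S x → T x)
    (hT : #{x // T x} < κ) : #{x // S x} < κ :=
  (Cardinal.mk_le_of_injective (f := fun x : {x // S x} => (⟨x.1, h _ x.2⟩ : {x // T x}))
    (fun x y hxy => by
      apply Subtype.ext
      exact congrArg (fun z : {x // T x} => z.1) hxy)).trans_lt hT

theorem small_or {κ : Cardinal.{0}} (hκ : ℵ₀ ≤ κ) {X : Type} {S T : X → Prop}
    (hS : #{x // S x} < κ) (hT : #{x // T x} < κ) : #{x // S x ∨ T x} < κ := by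
  have h := (Cardinal.mk_union_le {x | S x} {x | T x}).trans_lt (Cardinal.add_lt_of_lt hκ hS hT)
  exact h

/-- A descending sequence of moves: `φ a ξ r` says that `a` decides the `ξ`th move to be `r`. -/
structure Mv (E : Lev) (M : ℕ) : Type where
  φ : A E (M + 1) → E.Ω → P E → Prop
  mono : ∀ {a b ξ r}, b ≤ a → φ a ξ r → φ b ξ r
  func : ∀ {a b c ξ r s}, c ≤ a → c ≤ b → φ a ξ r → φ b ξ s → r = s
  small : #{r : P E // ∃ a ξ, φ a ξ r} < E.κ (M + 1)

/-- The value at `(ζ, ξ)` of level `j` is given by the first move which decides it. -/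
def RunR {M : ℕ} (μ : Mv E M) (j : ℕ) (ζ ξ : E.Ω) (b : A E j) (v : E.Ω) : Prop :=
  ∃ ξ0 r, μ.φ (rs (M + 1) b) ξ0 r ∧ (r j).r ζ ξ b v ∧
    ∀ η < ξ0, ∀ b' ≤ b, ∀ r' v', μ.φ (rs (M + 1) b') η r' → ¬ (r' j).r ζ ξ b' v'

/-- The condition generated by the moves (trivial below level `M + 1`). -/
def Run {M : ℕ} (μ : Mv E M) : P E := fun j =>
  if h : M + 1 ≤ j then
    { r := RunR μ j
      mono := by
        rintro ζ ξ a b v hb ⟨ξ0, r, h1, h2, h3⟩
        exact ⟨ξ0, r, μ.mono (rs_mono _ hb) h1, (r j).mono hb h2, fun η hη b' hb' =>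
          h3 η hη b' (hb'.trans hb)⟩
      func := by
        rintro ζ ξ a b c v w ha hb ⟨ξ0, r, h1, h2, h3⟩ ⟨η0, s, h1', h2', h3'⟩
        rcases lt_trichotomy ξ0 η0 with h | h | h
        · exact (h3' ξ0 h c hb r v (μ.mono (rs_mono _ ha) h1) ((r j).mono ha h2)).elim
        · subst h
          obtain rfl := μ.func (rs_mono _ ha) (rs_mono _ hb) h1 h1'
          exact (r j).func ha hb h2 h2'
        · exact (h3 η0 h c ha s w (μ.mono (rs_mono _ hb) h1') ((s j).mono hb h2')).elim
      val := by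
        rintro ζ ξ a v ⟨ξ0, r, h1, h2, h3⟩
        exact (r j).val h2
      small := by
        have h1 := small_iUnion (E.kreg j) (I := {r : P E // ∃ a ξ, μ.φ a ξ r})
          (μ.small.trans_le (E.kle h)) (fun r (x : E.Ω × E.Ω) => ∃ a v, (r.1 j).r x.1 x.2 a v)
          fun r => (r.1 j).small
        refine small_imp ?_ h1
        rintro x ⟨a, v, ξ0, r, h2, h3, h4⟩
        exact ⟨⟨r, _, _, h2⟩, a, v, h3⟩ }
  else triv0 E j _

theorem Run_r {M : ℕ} {μ : Mv E M} {j : ℕ} (hj : M + 1 ≤ j) {ζ ξ : E.Ω} {b : A E j} {v : E.Ω} :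
    (Run μ j).r ζ ξ b v ↔ RunR μ j ζ ξ b v := by
  unfold Run
  rw [dif_pos hj]

end Pool.Agent.MS.It
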