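import Pool.Agent.Lib_helper33.MS.Crit

/-!
# Ground systems and the conventions of the blocks
-/

namespace Pool.Agent.MS.It

open Cardinal Set Filter Pool.Agent.Lib_helper27

/-- The chain condition of stage `n`. -/
def CC (E : Lev) (n : ℕ) : Prop :=
  ∀ (I : Type) (g : I → A E n), (∀ i j, i ≠ j → ¬ ∃ d, d ≤ g i ∧ d ≤ g j) → #I < E.κ n

/-- `F` is monotone and functional: a name for a partial function. -/
def IsNm {P Ω : Type} [Preorder P] (F : P → Ω → Ω → Prop) : Prop :=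
  (∀ q r u v, r ≤ q → F q u v → F r u v) ∧ ∀ q u v w, F q u v → F q u w → v = w

/-- A system whose codes are ordered in the ground model; `p ≤ pi h` says that `p` forces `h` to be a
condition, `S p h t` that `p` forces `t` to be in the set coded by `h`. -/
structure GSys (P : Type) [Preorder P] (T : Type) where
  C : Type
  [pre : Preorder C]
  pi : C → P
  S : P → C → T → Prop
  S_mono : ∀ {p q h t}, q ≤ p → S p h t → S q h t
  S_reg : ∀ {p h t}, Loc p (fun q => S q h t) → S p h t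
  S_le : ∀ {p h h' t}, h' ≤ h → S p h' t → S p h t
  ne : ∀ {p h}, p ≤ pi h → ∃ q ≤ p, ∃ t, S q h t
  inh : ∃ h, ∀ p, p ≤ pi h

attribute [instance] GSys.pre

variable {P : Type} [Preorder P] {T : Type}

/-- Closure under descending sequences of length less than `κ`. -/
def GSys.Closed (G : GSys P T) (κ : Cardinal.{0}) : Prop :=
  ∀ (I : Type) [LinearOrder I], #I < κ → ∀ (h : I → G.C), Antitone h →
    ∀ p, (∀ i, p ≤ G.pi (h i)) → ∃ k, (∀ i, k ≤ h i) ∧ p ≤ G.pi k

/-- Decision of random functions `U × T → Z` with `#U < κ` and `#Z < μ`. -/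
def GSys.Dec (G : GSys P T) (κ μ : Cardinal.{0}) : Prop :=
  ∀ (U Z : Type), #U < κ → #Z < μ → ∀ (H : FN P (U × T) Z) (p : P) (h : G.C), p ≤ G.pi h →
    (∀ q ≤ p, ∀ t, G.S q h t → ∀ u, Loc q fun r => ∃ z, H.r r (u, t) z) →
    ∃ q ≤ p, ∃ k ≤ h, q ≤ G.pi k ∧ ∃ g : FN P U Z, g.Tot q ∧
      ∀ r ≤ q, ∀ t, G.S r k t → ∀ u z, g.r r u z → H.r r (u, t) z

/-- For every random function `H` on the points below `c` the code can be shrunk so that
`H (t i) < t i'` for `i < i'`. -/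
def GSys.Close {Ω ι : Type} [LinearOrder Ω] [LinearOrder ι] {c : Ω}
    (G : GSys P {e : ι → {x : Ω // x < c} // StrictMono e}) : Prop :=
  ∀ (H : FN P {x : Ω // x < c} {x : Ω // x < c}) (p : P), H.Tot p → ∀ h, p ≤ G.pi h →
    ∃ q ≤ p, ∃ k ≤ h, q ≤ G.pi k ∧
      ∀ r ≤ q, ∀ t, G.S r k t → ∀ i i', i < i' → ∀ v, H.r r (t.1 i) v → v < t.1 i'

end Pool.Agent.MS.It
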