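import Pool.Agent.Lib_helper33.MS.Defs

namespace Pool.Agent.MS.It

open Cardinal Set Pool.Agent.Lib_helper27

variable {E : Lev}

theorem Rl.ext' {n : ℕ} {A : Type} [Preorder A] {x y : Rl E n A}
    (h : ∀ ζ ξ a v, x.r ζ ξ a v ↔ y.r ζ ξ a v) : x = y := by
  have : x.r = y.r := by
    funext ζ ξ a v
    exact propext (h ζ ξ a v)
  cases x
  cases y
  cases this
  rfl

/-- Stage `n` has size less than `κ (n + 1)`. -/
theorem size (E : Lev) (n : ℕ) : #(A E n) < E.κ (n + 1) := by
  induction n with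
  | zero =>
    have h : #(A E 0) = 1 := mk_unit
    rw [h]
    exact one_lt_aleph0.trans_le (E.kinf 1)
  | succ n ih =>
    have hinf := E.kinf (n + 1 + 1)
    have h1 : E.κ (n + 1) < E.κ (n + 1 + 1) := E.klt (by omega)
    have h0 : E.κ n < E.κ (n + 1 + 1) := E.klt (by omega)
    let X := (Lv E.c (n + 1) × Lv E.c n) × (A E n × Lv E.c (n + 1))
    have hX : #X < E.κ (n + 1 + 1) := by
      simp only [X, mk_prod, lift_id]
      exact mul_lt_of_lt hinf (mul_lt_of_lt hinf h1 h0) (mul_lt_of_lt hinf (ih.trans h1) h1)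
    have hP : #(X → Prop) < E.κ (n + 1 + 1) := by
      have : #(X → Prop) = 2 ^ #X := by simp
      rw [this]
      exact E.kpow (n + 1) hX
    let f : A E (n + 1) → A E n × (X → Prop) :=
      fun x => (fs x, fun z => (sn x).r z.1.1.1 z.1.2.1 z.2.1 z.2.2.1)
    have hf : Function.Injective f := by
      intro x y hxy
      have h1 : fs x = fs y := congrArg Prod.fst hxy
      have h2 : sn x = sn y := by
        refine Rl.ext' fun ζ ξ a v => ?_
        constructor
        · intro h
          have h3 := (sn x).val h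
          have h4 := congrFun (congrArg Prod.snd hxy)
            ⟨⟨⟨ζ, h3.2.1⟩, ⟨ξ, h3.2.2⟩⟩, ⟨a, ⟨v, h3.1.trans h3.2.1⟩⟩⟩
          exact (iff_of_eq h4).1 h
        · intro h
          have h3 := (sn y).val h
          have h4 := congrFun (congrArg Prod.snd hxy)
            ⟨⟨⟨ζ, h3.2.1⟩, ⟨ξ, h3.2.2⟩⟩, ⟨a, ⟨v, h3.1.trans h3.2.1⟩⟩⟩
          exact (iff_of_eq h4).2 h
      rw [← mk_eta x, ← mk_eta y, h1, h2]
    refine (mk_le_of_injective hf).trans_lt ?_
    rw [mk_prod, lift_id, lift_id]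
    exact mul_lt_of_lt hinf (ih.trans h1) hP

end Pool.Agent.MS.It
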